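import Pool.Agent.J6H6.DF.Stm3

set_option autoImplicit false

/-!
# Module RS-LIFT of project DF (racing version, helper64)
-/

namespace Pool.Agent.J6H6.DF

theorem t_LIFT : S_LIFT := by
  intro S S' p B B' D hp hB s hs hmem
  classical
  have : Nonempty S := ⟨s⟩
  set q : S' → S := Function.invFunOn p D with hq
  have hqp : ∀ t ∈ D, q (p t) = t := fun t ht => hp.leftInvOn_invFunOn ht
  let φ : (S' →₀ ℤ) →+ (S →₀ ℤ) := Finsupp.mapDomain.addMonoidHom q
  have key : ∀ u ∈ p '' D, ∀ v ∈ p '' D, ∀ a b : ℤ,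
      B (Finsupp.single (q u) a) (Finsupp.single (q v) b) =
        B' (Finsupp.single u a) (Finsupp.single v b) := by
    rintro _ ⟨u, hu, rfl⟩ _ ⟨v, hv, rfl⟩ a b
    rw [hqp u hu, hqp v hv]
    have e : ∀ {T : Type} (t : T) (a : ℤ), Finsupp.single t a = a • Finsupp.single t (1 : ℤ) := by
      intro T t a
      simp
    rw [e u a, e v b, e (p u) a, e (p v) b]
    rw [map_zsmul, map_zsmul, map_zsmul, map_zsmul, AddMonoidHom.coe_smul, AddMonoidHom.coe_smul, Pi.smul_apply,
      Pi.smul_apply, hB u hu v hv]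
  have hφ : ∀ x : S' →₀ ℤ, (∀ t, x t ≠ 0 → t ∈ p '' D) → ∀ y : S' →₀ ℤ, (∀ t, y t ≠ 0 → t ∈ p '' D) →
      B (φ x) (φ y) = B' x y := by
    intro x hx y hy
    have ex : x = ∑ u ∈ x.support, Finsupp.single u (x u) := (Finsupp.sum_single x).symm
    have ey : y = ∑ u ∈ y.support, Finsupp.single u (y u) := (Finsupp.sum_single y).symm
    have e1 : φ x = ∑ u ∈ x.support, Finsupp.single (q u) (x u) := rfl
    have e2 : φ y = ∑ u ∈ y.support, Finsupp.single (q u) (y u) := rfl
    have e3 : B' x y = ∑ u ∈ x.support, ∑ v ∈ y.support, B' (Finsupp.single u (x u)) (Finsupp.single v (y v)) := by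
      conv_lhs => rw [ex, ey]
      rw [map_sum, Finset.sum_comm]
      refine Finset.sum_congr rfl fun v _ => ?_
      rw [map_sum, AddMonoidHom.finsetSum_apply]
    have e4 : B (φ x) (φ y) = ∑ u ∈ x.support, ∑ v ∈ y.support,
        B (Finsupp.single (q u) (x u)) (Finsupp.single (q v) (y v)) := by
      rw [e1, e2, map_sum, Finset.sum_comm]
      refine Finset.sum_congr rfl fun v _ => ?_
      rw [map_sum, AddMonoidHom.finsetSum_apply]
    rw [e3, e4]
    exact Finset.sum_congr rfl fun u hu => Finset.sum_congr rfl fun v hv =>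
      key u (hx u (Finsupp.mem_support_iff.1 hu)) v (hy v (Finsupp.mem_support_iff.1 hv)) _ _
  have h1 : φ (Finsupp.single (p s) 1) = Finsupp.single s 1 := by
    change Finsupp.mapDomain q (Finsupp.single (p s) 1) = _
    rw [Finsupp.mapDomain_single, hqp s hs]
  rw [← h1]
  have h2 := AddSubgroup.mem_map_of_mem φ hmem
  rw [AddMonoidHom.map_closure] at h2
  refine AddSubgroup.closure_mono ?_ h2
  rintro _ ⟨x, ⟨hx1, hx2⟩, rfl⟩
  change B (φ x) (φ x) ≤ 2
  rw [hφ x hx2 x hx2]
  exact hx1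

end Pool.Agent.J6H6.DF
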